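import Mathlib
import Pool.Agent.Results.MP_8a2df8_gt.ProductCompact

namespace Pool.Agent.Results.MP_ab53ee_gt.CommonSource

open Topology Filter Set
open Pool.Agent.Results.MP_8a2df8_gt.ProductCompact

universe u v w

section Push

variable {Z : Type u} [TopologicalSpace Z] {X : Type v} [TopologicalSpace X]

/-- Transfer of the angelic property along a functional `Φ : ℝ^X → ℝ^Z` that detects
pointwise convergence. -/
lemma Ang.pull (hZ : Ang Z) {Φ : (X → ℝ) → (Z → ℝ)} (hΦ : Continuous Φ)
    (hΦ' : ∀ h : X → ℝ, Continuous h → Continuous (Φ h))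
    (hconv : ∀ (s : ℕ → (X → ℝ)) (f : X → ℝ),
      Tendsto (fun n => Φ (s n)) atTop (𝓝 (Φ f)) → Tendsto s atTop (𝓝 f)) : Ang X := by
  intro A hA f hf
  obtain ⟨-, s, hs, hsf⟩ := hZ.push hA hf hΦ hΦ'
  exact ⟨s, hs, hconv s f hsf⟩

end Push

/-- The function on `Z × (⊕ₙ K n)⁺` attached to a function `h` on `X` and maps
`p n : Z × K n → X`. -/
noncomputable def lift {Z : Type u} {K : ℕ → Type w} {X : Type v} (p : ∀ n, Z × K n → X)
    (h : X → ℝ) : Z × OnePoint (Σ n, K n) → ℝ := fun q =>
  q.2.elim 0 (fun t => (1 / 2) ^ t.1 * Real.arctan (h (p t.1 (q.1, t.2))))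

lemma lift_coe {Z : Type u} {K : ℕ → Type w} {X : Type v} (p : ∀ n, Z × K n → X)
    (h : X → ℝ) (z : Z) (t : Σ n, K n) :
    lift p h (z, (t : OnePoint (Σ n, K n))) =
      (1 / 2) ^ t.1 * Real.arctan (h (p t.1 (z, t.2))) := rfl

lemma lift_infty {Z : Type u} {K : ℕ → Type w} {X : Type v} (p : ∀ n, Z × K n → X)
    (h : X → ℝ) (z : Z) : lift p h (z, (OnePoint.infty : OnePoint (Σ n, K n))) = 0 := rfl

lemma continuous_lift_left {Z : Type u} {K : ℕ → Type w} {X : Type v} (p : ∀ n, Z × K n → X) :
    Continuous (fun h : X → ℝ => lift p h) := by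
  refine continuous_pi ?_
  rintro ⟨z, t⟩
  induction t using OnePoint.rec with
  | infty => exact continuous_const
  | coe t =>
    exact continuous_const.mul (Real.continuous_arctan.comp (continuous_apply _))

lemma continuous_lift {Z : Type u} [TopologicalSpace Z] {K : ℕ → Type w}
    [∀ n, TopologicalSpace (K n)] [∀ n, CompactSpace (K n)] [∀ n, T2Space (K n)]
    {X : Type v} [TopologicalSpace X]
    {p : ∀ n, Z × K n → X} (hp : ∀ n, Continuous (p n)) {h : X → ℝ} (hh : Continuous h) :
    Continuous (lift p h) := by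
  rw [continuous_iff_continuousAt]
  rintro ⟨z, t⟩
  induction t using OnePoint.rec with
  | infty =>
    rw [Metric.continuousAt_iff']
    intro ε hε
    obtain ⟨N, hN⟩ := exists_pow_lt_of_lt_one (show (0 : ℝ) < ε / 2 by positivity)
      (show (1 / 2 : ℝ) < 1 by norm_num)
    let C : Set (Σ n, K n) := ⋃ n ∈ Finset.range N, (Sigma.mk n) '' univ
    have hC : IsCompact C := by
      refine (Finset.range N).isCompact_biUnion ?_
      intro n _
      exact isCompact_univ.image continuous_sigmaMk
    have hmem : ((↑) '' C : Set (OnePoint (Σ n, K n)))ᶜ ∈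
        𝓝 (OnePoint.infty : OnePoint (Σ n, K n)) :=
      (OnePoint.isOpen_compl_image_coe.2 ⟨hC.isClosed, hC⟩).mem_nhds
        OnePoint.infty_notMem_image_coe
    have h2 := prod_mem_nhds (univ_mem : (univ : Set Z) ∈ 𝓝 z) hmem
    filter_upwards [h2] with q hq
    obtain ⟨z', t⟩ := q
    induction t using OnePoint.rec with
    | infty => simpa [lift_infty] using hε
    | coe t =>
      have hq2 : t ∉ C := fun hcon => hq.2 ⟨t, hcon, rfl⟩
      have hn : N ≤ t.1 := by
        by_contra hcon
        exact hq2 (mem_biUnion (by simpa using hcon) ⟨t.2, mem_univ _, rfl⟩)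
      rw [lift_coe, lift_infty, Real.dist_eq, sub_zero, abs_mul,
        abs_of_nonneg (by positivity : (0 : ℝ) ≤ (1 / 2) ^ t.1)]
      have h3 : |Real.arctan (h (p t.1 (z', t.2)))| ≤ 2 := by
        rw [abs_le]
        have h4 := Real.neg_pi_div_two_lt_arctan (h (p t.1 (z', t.2)))
        have h5 := Real.arctan_lt_pi_div_two (h (p t.1 (z', t.2)))
        have h6 := Real.pi_lt_four
        constructor <;> linarith
      have h4 : ((1 / 2 : ℝ)) ^ t.1 ≤ (1 / 2) ^ N :=
        pow_le_pow_of_le_one (by norm_num) (by norm_num) hn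
      have h5 : (0 : ℝ) ≤ (1 / 2) ^ t.1 := by positivity
      nlinarith [abs_nonneg (Real.arctan (h (p t.1 (z', t.2))))]
  | coe t =>
    have hemb : IsOpenEmbedding (fun q : Z × (Σ n, K n) =>
        ((q.1, (q.2 : OnePoint (Σ n, K n))) : Z × OnePoint (Σ n, K n))) :=
      IsOpenEmbedding.id.prodMap OnePoint.isOpenEmbedding_coe
    have hc : Continuous (fun q : Z × (Σ n, K n) =>
        lift p h (q.1, (q.2 : OnePoint (Σ n, K n)))) := by
      let e : Z × (Σ n, K n) ≃ₜ (Σ n, K n × Z) :=
        (Homeomorph.prodComm Z (Σ n, K n)).trans (Homeomorph.sigmaProdDistrib (X := K) (Y := Z))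
      have h2 : Continuous (fun q : (Σ n, K n × Z) =>
          ((1 / 2 : ℝ)) ^ q.1 * Real.arctan (h (p q.1 (q.2.2, q.2.1)))) := by
        refine continuous_sigma fun n => ?_
        have h3 : Continuous (fun q : K n × Z => p n (q.2, q.1)) :=
          (hp n).comp (continuous_snd.prodMk continuous_fst)
        have h4 : Continuous (fun q : K n × Z =>
            ((1 / 2 : ℝ)) ^ n * Real.arctan (h (p n (q.2, q.1)))) :=
          continuous_const.mul (Real.continuous_arctan.comp (hh.comp h3))
        exact h4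
      exact h2.comp e.continuous
    have := hemb.continuousAt_iff (f := fun q : Z × (Σ n, K n) =>
        ((q.1, (q.2 : OnePoint (Σ n, K n))) : Z × OnePoint (Σ n, K n)))
        (g := lift p h) (x := (z, t))
    exact this.1 hc.continuousAt

/-- The main step: a space covered by countably many continuous images of `Z × K n`. -/
lemma ang_of_cover {Z : Type u} [TopologicalSpace Z] (hZ : Ang Z) {K : ℕ → Type w}
    [∀ n, TopologicalSpace (K n)] [∀ n, CompactSpace (K n)] [∀ n, T2Space (K n)]
    {X : Type v} [TopologicalSpace X]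
    {p : ∀ n, Z × K n → X} (hp : ∀ n, Continuous (p n)) (hcov : ⋃ n, range (p n) = univ) :
    Ang X := by
  have h1 : Ang (Z × OnePoint (Σ n, K n)) := hZ.prod
  refine Ang.pull h1 (continuous_lift_left p) (fun h hh => continuous_lift hp hh) ?_
  intro s f hsf
  rw [tendsto_pi_nhds] at hsf ⊢
  intro x
  have hx : x ∈ ⋃ n, range (p n) := by rw [hcov]; exact mem_univ x
  rw [mem_iUnion] at hx
  obtain ⟨n, ⟨z, t⟩, rfl⟩ := hx
  have h2 := hsf (z, ((⟨n, t⟩ : Σ n, K n) : OnePoint (Σ n, K n)))
  simp only [lift_coe] at h2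
  have h3 : Tendsto (fun m => Real.arctan (s m (p n (z, t)))) atTop
      (𝓝 (Real.arctan (f (p n (z, t))))) := by
    have h4 := h2.const_mul ((2 : ℝ) ^ n)
    have h5 : ∀ r : ℝ, (2 : ℝ) ^ n * ((1 / 2) ^ n * r) = r := by
      intro r
      rw [← mul_assoc, ← mul_pow]
      norm_num
    simpa only [h5] using h4
  have h6 : Tendsto (fun m => Real.tan (Real.arctan (s m (p n (z, t))))) atTop
      (𝓝 (Real.tan (Real.arctan (f (p n (z, t)))))) :=
    (Real.continuousAt_tan.2 (Real.cos_arctan_pos _).ne').tendsto.comp h3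
  simpa only [Real.tan_arctan] using h6

lemma t35Space_sigma {ι : Type} (X : ι → Type u) [∀ i, TopologicalSpace (X i)]
    [∀ i, T35Space (X i)] : T35Space (Σ i, X i) := by
  classical
  have h0 : CompletelyRegularSpace (Σ i, X i) := by
    refine ⟨?_⟩
    rintro ⟨i, x⟩ K hK hx
    obtain ⟨f, hf, hf0, hf1⟩ := CompletelyRegularSpace.completely_regular x
      (Sigma.mk i ⁻¹' K) (hK.preimage continuous_sigmaMk) hx
    refine ⟨fun y => if h : y.1 = i then f (h ▸ y.2) else 1, ?_, ?_, ?_⟩
    · refine continuous_sigma fun j => ?_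
      by_cases hj : j = i
      · subst hj
        simpa using hf
      · simp only [hj, dif_neg, not_false_eq_true]
        exact continuous_const
    · simpa using hf0
    · rintro ⟨j, y⟩ hy
      by_cases hj : j = i
      · subst hj
        simpa using hf1 (show y ∈ Sigma.mk j ⁻¹' K from hy)
      · simp [hj]
  exact { t0 := (inferInstance : T0Space (Σ i, X i)).t0, toCompletelyRegularSpace := h0 }

/-- **Countable sums of Grothendieck spaces.** A countable sum of nonempty Tychonoff spaces `X i`
is Grothendieck if and only if there are one Grothendieck space `Z`, compact Hausdorff spaces `K i`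
and continuous surjections `Z × K i → X i`. -/
theorem result (ι : Type) [Nonempty ι] [Countable ι] (X : ι → Type u)
    [∀ i, TopologicalSpace (X i)] [∀ i, T35Space (X i)] [∀ i, Nonempty (X i)] :
    GrothendieckSpace (Σ i, X i) ↔
      ∃ (Z : Type u) (_ : TopologicalSpace Z), T35Space Z ∧ GrothendieckSpace Z ∧
        ∃ (K : ι → Type u) (_ : ∀ i, TopologicalSpace (K i)),
          (∀ i, CompactSpace (K i)) ∧ (∀ i, T2Space (K i)) ∧
          ∀ i, ∃ p : Z × K i → X i, Continuous p ∧ Function.Surjective p := by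
  classical
  constructor
  · intro h
    have x₀ : ∀ i, X i := fun i => Classical.arbitrary (X i)
    refine ⟨Σ i, X i, inferInstance, t35Space_sigma X, h, fun _ => PUnit, fun _ => inferInstance,
      fun _ => inferInstance, fun _ => inferInstance, fun i => ?_⟩
    refine ⟨fun a => if h : a.1.1 = i then h ▸ a.1.2 else x₀ i, ?_, ?_⟩
    · have hc : Continuous (fun y : Σ i, X i => if h : y.1 = i then h ▸ y.2 else x₀ i) := by
        refine continuous_sigma fun j => ?_
        by_cases hj : j = i
        · subst hj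
          simpa using (continuous_id' : Continuous fun a : X j => a)
        · simp only [hj, dif_neg, not_false_eq_true]
          exact continuous_const
      exact hc.comp continuous_fst
    · intro x
      exact ⟨(⟨i, x⟩, PUnit.unit), by simp⟩
  · rintro ⟨Z, _, _, hZ, K, _, hK, hK2, hp⟩
    choose p hpc hps using hp
    obtain ⟨e, he⟩ := exists_surjective_nat ι
    have : ∀ n, CompactSpace (K (e n)) := fun n => hK (e n)
    have : ∀ n, T2Space (K (e n)) := fun n => hK2 (e n)
    have := t35Space_sigma X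
    refine grothendieckSpace_of_ang (ang_of_cover (ang_of_grothendieckSpace hZ)
      (K := fun n => K (e n)) (X := Σ i, X i)
      (p := fun n a => (⟨e n, p (e n) a⟩ : Σ i, X i)) ?_ ?_)
    · intro n
      exact continuous_sigmaMk.comp (hpc (e n))
    · rw [eq_univ_iff_forall]
      rintro ⟨i, x⟩
      obtain ⟨n, rfl⟩ := he i
      obtain ⟨a, rfl⟩ := hps (e n) x
      exact mem_iUnion.2 ⟨n, ⟨a, rfl⟩⟩

end Pool.Agent.Results.MP_ab53ee_gt.CommonSource
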