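import Mathlib
import Pool.Agent.Results.MP_8a2df8_gt.ProductCompact

namespace Pool.Agent.Results.MP_ab53ee_gt.CountableReflection

open Topology Filter Set
open Pool.Agent.Results.MP_8a2df8_gt.ProductCompact

universe u v

/-- Bisequential space (Michael): each ultrafilter converging to a point `z` has countably many
members such that every neighbourhood of `z` contains one of them. -/
def Bisequential (Z : Type u) [TopologicalSpace Z] : Prop :=
  ∀ (U : Ultrafilter Z) (z : Z), (U : Filter Z) ≤ 𝓝 z →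
    ∃ F : ℕ → Set Z, (∀ n, F n ∈ U) ∧ ∀ V ∈ 𝓝 z, ∃ n, F n ⊆ V

/-- A set all of whose subsets have sequential closure. -/
def FU {E : Type u} [TopologicalSpace E] (K : Set E) : Prop :=
  ∀ B ⊆ K, ∀ x ∈ closure B, ∃ s : ℕ → E, (∀ n, s n ∈ B) ∧ Tendsto s atTop (𝓝 x)

/-- Countable tightness of a set. -/
def CT {E : Type u} [TopologicalSpace E] (K : Set E) : Prop :=
  ∀ B ⊆ K, ∀ x ∈ closure B, ∃ C ⊆ B, C.Countable ∧ x ∈ closure C

lemma FU.ct {E : Type u} [TopologicalSpace E] {K : Set E} (h : FU K) : CT K := by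
  intro B hB x hx
  obtain ⟨s, hs, hsx⟩ := h B hB x hx
  refine ⟨range s, ?_, countable_range s, ?_⟩
  · rintro _ ⟨n, rfl⟩
    exact hs n
  · exact mem_closure_of_tendsto hsx (Eventually.of_forall fun n => mem_range_self n)

/-- Compact sets with the Frechet-Urysohn property are strongly Frechet. -/
lemma strong {E : Type u} [TopologicalSpace E] [T2Space E] [RegularSpace E] {K : Set E}
    (hK : IsCompact K) (hFU : FU K) {A : ℕ → Set E} (hA : Antitone A) (hAK : A 0 ⊆ K) {x : E}
    (hx : ∀ n, x ∈ closure (A n)) :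
    ∃ s : ℕ → E, (∀ n, s n ∈ A n) ∧ Tendsto s atTop (𝓝 x) := by
  classical
  by_contra hcon
  push Not at hcon
  have hAnK : ∀ n, A n ⊆ K := fun n => (hA (Nat.zero_le n)).trans hAK
  have hcl : ∀ n, closure (A n) ⊆ K := fun n => closure_minimal (hAnK n) hK.isClosed
  let B : Set E := {b | b ≠ x ∧ ∀ n, b ∈ closure (A n)}
  have hB : B ⊆ K := fun b hb => hcl 0 (hb.2 0)
  have hxB : x ∈ closure B := by
    rw [mem_closure_iff_nhds]
    intro V hV
    obtain ⟨W, hW, hWc, hWV⟩ := exists_mem_nhds_isClosed_subset hV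
    have h1 : ∀ n, ∃ a, a ∈ A n ∧ a ∈ W := by
      intro n
      obtain ⟨a, ha1, ha2⟩ := mem_closure_iff_nhds.mp (hx n) W hW
      exact ⟨a, ha2, ha1⟩
    choose a haA haW using h1
    have h2 := hcon a haA
    rw [tendsto_nhds] at h2
    push Not at h2
    obtain ⟨U, hUo, hxU, hU⟩ := h2
    have h3 : ∃ᶠ n in atTop, a n ∉ U := by
      intro h
      apply hU
      filter_upwards [h] with n hn
      simpa using hn
    obtain ⟨φ, hφ, hφU⟩ := extraction_of_frequently_atTop h3
    obtain ⟨b, hbK, hb⟩ := hK.exists_mapClusterPt_of_frequently (l := atTop) (f := a ∘ φ)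
      (Eventually.of_forall fun n => hAnK _ (haA _)).frequently
    refine ⟨b, hWV (hWc.mem_of_mapClusterPt hb (Eventually.of_forall fun n => haW _)), ?_, ?_⟩
    · rintro rfl
      exact hUo.isClosed_compl.mem_of_mapClusterPt hb (Eventually.of_forall fun n => hφU n) hxU
    · intro n
      refine isClosed_closure.mem_of_mapClusterPt hb ?_
      filter_upwards [eventually_ge_atTop n] with m hm
      exact subset_closure (hA (hm.trans (hφ.id_le m)) (haA _))
  obtain ⟨b, hbB, hbx⟩ := hFU B hB x hxB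
  have h4 : ∀ k, ∃ U : Set E, IsOpen U ∧ b k ∈ U ∧ x ∉ closure U := by
    intro k
    obtain ⟨U, V, hU, hV, hbU, hxV, hUV⟩ := t2_separation (hbB k).1
    refine ⟨U, hU, hbU, fun hxc => ?_⟩
    exact (hUV.closure_left hV).le_bot ⟨hxc, hxV⟩
  choose U hUo hbU hxU using h4
  let G : Set E := ⋃ k, (A k ∩ U k)
  have hG : G ⊆ K := iUnion_subset fun k => inter_subset_left.trans (hAnK k)
  have hbG : ∀ k, b k ∈ closure G := by
    intro k
    have h5 : b k ∈ closure (A k ∩ U k) := by
      rw [mem_closure_iff_nhds]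
      intro V hV
      obtain ⟨z, hz1, hz2⟩ := mem_closure_iff_nhds.mp ((hbB k).2 k) (V ∩ U k)
        (inter_mem hV ((hUo k).mem_nhds (hbU k)))
      exact ⟨z, hz1.1, hz2, hz1.2⟩
    exact closure_mono (subset_iUnion (fun k => A k ∩ U k) k) h5
  have hxG : x ∈ closure G := isClosed_closure.mem_of_tendsto hbx (Eventually.of_forall hbG)
  obtain ⟨z, hzG, hzx⟩ := hFU G hG x hxG
  have h5 : ∀ j, ∃ k, z j ∈ A k ∩ U k := fun j => mem_iUnion.1 (hzG j)
  choose k hk using h5
  have h6 : ∀ n, ∀ᶠ j in atTop, n ≤ k j := by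
    intro n
    have h7 : ∀ᶠ j in atTop, ∀ i ∈ Finset.range n, z j ∉ U i := by
      rw [Filter.eventually_all_finset]
      intro i _
      have h8 : (closure (U i))ᶜ ∈ 𝓝 x := isClosed_closure.isOpen_compl.mem_nhds (hxU i)
      filter_upwards [hzx.eventually h8] with j hj hj2
      exact hj (subset_closure hj2)
    filter_upwards [h7] with j hj
    by_contra hlt
    push Not at hlt
    exact hj (k j) (Finset.mem_range.2 hlt) (hk j).2
  obtain ⟨φ, hφ, hφk⟩ := extraction_forall_of_eventually h6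
  exact hcon (z ∘ φ) (fun n => hA (hφk n) (hk (φ n)).1) (hzx.comp hφ.tendsto_atTop)

/-- Compact sets with the Frechet-Urysohn property are sequentially compact. -/
lemma seqc {E : Type u} [TopologicalSpace E] [T2Space E] [RegularSpace E] {K : Set E}
    (hK : IsCompact K) (hFU : FU K) (s : ℕ → E) (hs : ∀ n, s n ∈ K) :
    ∃ φ : ℕ → ℕ, StrictMono φ ∧ ∃ y ∈ K, Tendsto (s ∘ φ) atTop (𝓝 y) := by
  obtain ⟨y, hyK, hy⟩ := hK.exists_mapClusterPt_of_frequently (l := atTop) (f := s)
    (Eventually.of_forall hs).frequently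
  have hx : ∀ n, y ∈ closure (s '' Set.Ici n) := by
    intro n
    rw [mem_closure_iff_nhds]
    intro V hV
    obtain ⟨m, hm, hmV⟩ := (frequently_atTop.1 (mapClusterPt_iff_frequently.1 hy V hV)) n
    exact ⟨s m, hmV, m, hm, rfl⟩
  obtain ⟨t, ht, hty⟩ := strong hK hFU (A := fun n => s '' Set.Ici n)
    (fun a b hab => image_mono (Ici_subset_Ici.2 hab))
    (by rintro _ ⟨m, _, rfl⟩; exact hs m) hx
  choose k hk hks using ht
  have hkt : Tendsto k atTop atTop := tendsto_atTop_mono hk tendsto_id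
  obtain ⟨φ, hφ, hφk⟩ := strictMono_subseq_of_tendsto_atTop hkt
  refine ⟨k ∘ φ, hφk, y, hyK, ?_⟩
  have h1 : s ∘ (k ∘ φ) = t ∘ φ := funext fun n => hks (φ n)
  rw [h1]
  exact hty.comp hφ.tendsto_atTop

/-- Double sequences: tails chosen by one function converge. -/
def Beta {E : Type u} [TopologicalSpace E] (L : Set E) : Prop :=
  ∀ (y : E) (z : ℕ → E) (w : ℕ → ℕ → E), Tendsto z atTop (𝓝 y) →
    (∀ n, Tendsto (w n) atTop (𝓝 (z n))) → (∀ n m, w n m ∈ L) →
    ∃ g : ℕ → ℕ, ∀ (k m : ℕ → ℕ), Tendsto k atTop atTop → (∀ j, g (k j) ≤ m j) →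
      Tendsto (fun j => w (k j) (m j)) atTop (𝓝 y)

/-- The product of two compact Frechet-Urysohn sets one of which has the property `Beta`. -/
lemma fu_prod_beta {E : Type u} {E' : Type v} [TopologicalSpace E] [TopologicalSpace E']
    [T2Space E] [T2Space E'] [RegularSpace E] [RegularSpace E'] {K : Set E} {L : Set E'}
    (hK : IsCompact K) (hL : IsCompact L) (hKF : FU K) (hLF : FU L) (hβ : Beta L) :
    FU (K ×ˢ L) := by
  classical
  intro B hB p hp
  let D : Set (E × E') := {q | ∃ s : ℕ → E × E', (∀ n, s n ∈ B) ∧ Tendsto s atTop (𝓝 q)}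
  have hBD : B ⊆ D := fun q hq => ⟨fun _ => q, fun _ => hq, tendsto_const_nhds⟩
  have hKL : IsCompact (K ×ˢ L) := hK.prod hL
  have hDKL : D ⊆ K ×ˢ L := by
    rintro q ⟨s, hs, hsq⟩
    exact hKL.isClosed.mem_of_tendsto hsq (Eventually.of_forall fun n => hB (hs n))
  have hDseq : ∀ (s : ℕ → E × E') (q : E × E'), (∀ n, s n ∈ D) → Tendsto s atTop (𝓝 q) →
      q ∈ D := by
    intro s q hs hsq
    choose w hwB hws using hs
    obtain ⟨g, hg⟩ := hβ q.2 (fun n => (s n).2) (fun n m => (w n m).2)
      ((continuous_snd.tendsto q).comp hsq)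
      (fun n => (continuous_snd.tendsto (s n)).comp (hws n)) (fun n m => (hB (hwB n m)).2)
    let A : ℕ → Set E := fun n => {a | ∃ k m, n ≤ k ∧ g k ≤ m ∧ a = (w k m).1}
    have hA : Antitone A := by
      rintro a b hab _ ⟨k, m, hk, hm, rfl⟩
      exact ⟨k, m, hab.trans hk, hm, rfl⟩
    have hAK : A 0 ⊆ K := by
      rintro _ ⟨k, m, _, _, rfl⟩
      exact (hB (hwB k m)).1
    have hx : ∀ n, q.1 ∈ closure (A n) := by
      intro n
      have h1 : ∀ k, n ≤ k → (s k).1 ∈ closure (A n) := by
        intro k hk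
        refine mem_closure_of_tendsto ((continuous_fst.tendsto (s k)).comp (hws k)) ?_
        filter_upwards [eventually_ge_atTop (g k)] with m hm
        exact ⟨k, m, hk, hm, rfl⟩
      refine isClosed_closure.mem_of_tendsto ((continuous_fst.tendsto q).comp hsq) ?_
      filter_upwards [eventually_ge_atTop n] with k hk
      exact h1 k hk
    obtain ⟨t, ht, htq⟩ := strong hK hKF hA hAK hx
    choose k m hk hm hkm using ht
    refine ⟨fun j => w (k j) (m j), fun j => hwB _ _, ?_⟩
    have h2 := hg k m (tendsto_atTop_mono hk tendsto_id) hm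
    have h3 : Tendsto (fun j => (w (k j) (m j)).1) atTop (𝓝 q.1) := by
      have h4 : (fun j => (w (k j) (m j)).1) = t := funext fun j => (hkm j).symm
      rw [h4]
      exact htq
    exact h3.prodMk_nhds h2
  have hDclosed : closure D ⊆ D := by
    rintro ⟨x, y⟩ hxy
    by_contra hpD
    let Dx : Set E' := {y' | (x, y') ∈ D}
    have hDxL : Dx ⊆ L := fun y' hy' => (hDKL hy').2
    have hDx : IsClosed Dx := by
      rw [← closure_subset_iff_isClosed]
      intro y' hy'
      obtain ⟨s, hs, hsy⟩ := hLF Dx hDxL y' hy'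
      exact hDseq (fun n => (x, s n)) (x, y') hs (tendsto_const_nhds.prodMk_nhds hsy)
    have hyc : Dxᶜ ∈ 𝓝 y := hDx.isOpen_compl.mem_nhds hpD
    obtain ⟨W, hW, hWc, hWD⟩ := exists_mem_nhds_isClosed_subset hyc
    let P : Set E := {a | ∃ b, b ∈ W ∧ (a, b) ∈ D}
    have hPK : P ⊆ K := by
      rintro a ⟨b, _, hab⟩
      exact (hDKL hab).1
    have hxP : x ∈ closure P := by
      rw [mem_closure_iff_nhds]
      intro V hV
      obtain ⟨⟨a, b⟩, ⟨ha, hb⟩, hab⟩ := mem_closure_iff_nhds.mp hxy (V ×ˢ W)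
        (prod_mem_nhds hV hW)
      exact ⟨a, ha, b, hb, hab⟩
    obtain ⟨s, hs, hsx⟩ := hKF P hPK x hxP
    choose t htW htD using hs
    obtain ⟨φ, hφ, y', _, hy'⟩ := seqc hL hLF t (fun n => (hDKL (htD n)).2)
    have h3 : (x, y') ∈ D := hDseq (fun n => (s (φ n), t (φ n))) (x, y') (fun n => htD _)
      ((hsx.comp hφ.tendsto_atTop).prodMk_nhds hy')
    exact hWD (hWc.mem_of_tendsto hy' (Eventually.of_forall fun n => htW _)) h3
  exact hDclosed (closure_mono hBD hp)

lemma beta_of_bounded {Y : Type u}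
    (hU : ∀ φ : Y → ℕ → ℕ, ∃ g : ℕ → ℕ, ∀ y, ∀ᶠ n in atTop, φ y n ≤ g n)
    (L : Set (Y → ℝ)) : Beta L := by
  intro y z w hz hw _
  have h1 : ∀ t n, ∃ M : ℕ, ∀ m ≥ M, |w n m t - z n t| ≤ 1 / ((n : ℝ) + 1) := by
    intro t n
    have h2 := tendsto_pi_nhds.1 (hw n) t
    rw [Metric.tendsto_atTop] at h2
    obtain ⟨M, hM⟩ := h2 (1 / ((n : ℝ) + 1)) (by positivity)
    refine ⟨M, fun m hm => ?_⟩
    have h3 := hM m hm
    rw [Real.dist_eq] at h3
    exact h3.le
  choose φ hφ using h1
  obtain ⟨g, hg⟩ := hU φ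
  refine ⟨g, fun k m hk hm => ?_⟩
  rw [tendsto_pi_nhds]
  intro t
  have h3 : Tendsto (fun j => z (k j) t) atTop (𝓝 (y t)) := (tendsto_pi_nhds.1 hz t).comp hk
  have h4 : Tendsto (fun j => w (k j) (m j) t - z (k j) t) atTop (𝓝 0) := by
    refine squeeze_zero_norm' (a := fun j => 1 / ((k j : ℝ) + 1)) ?_ ?_
    · filter_upwards [hk.eventually (hg t)] with j hj
      rw [Real.norm_eq_abs]
      exact hφ t (k j) (m j) (hj.trans (hm j))
    · exact (tendsto_one_div_add_atTop_nhds_zero_nat (𝕜 := ℝ)).comp hk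
  have h5 := h3.add h4
  simpa using h5

/-- Countable tightness of a product of two compact sets. -/
lemma CT.prod {E : Type u} {E' : Type v} [TopologicalSpace E] [TopologicalSpace E'] [T2Space E]
    [T2Space E'] [RegularSpace E'] {K : Set E} {L : Set E'} (hK : IsCompact K)
    (hL : IsCompact L) (hKt : CT K) (hLt : CT L) : CT (K ×ˢ L) := by
  classical
  intro B hB
  let D : Set (E × E') := {p | ∃ C ⊆ B, C.Countable ∧ p ∈ closure C}
  have hBD : B ⊆ D := fun p hp =>
    ⟨{p}, by simpa using hp, countable_singleton _, subset_closure rfl⟩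
  have hKL : IsCompact (K ×ˢ L) := hK.prod hL
  have hDKL : D ⊆ K ×ˢ L := by
    rintro p ⟨C, hC, -, hp⟩
    exact closure_minimal (hC.trans hB) hKL.isClosed hp
  have hDω : ∀ S ⊆ D, S.Countable → closure S ⊆ D := by
    intro S hS hSc
    have h1 : ∀ s : E × E', ∃ C : Set (E × E'), C ⊆ B ∧ C.Countable ∧
        (s ∈ S → s ∈ closure C) := by
      intro s
      by_cases hs : s ∈ S
      · obtain ⟨C, h1, h2, h3⟩ := hS hs
        exact ⟨C, h1, h2, fun _ => h3⟩
      · exact ⟨∅, empty_subset _, countable_empty, fun h => absurd h hs⟩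
    choose C hC hCc hCs using h1
    have h2 : S ⊆ closure (⋃ s ∈ S, C s) := fun s hs =>
      closure_mono (subset_biUnion_of_mem (u := C) hs) (hCs s hs)
    intro p hp
    refine ⟨⋃ s ∈ S, C s, iUnion₂_subset fun s _ => hC s, hSc.biUnion fun s _ => hCc s, ?_⟩
    exact closure_minimal h2 isClosed_closure hp
  have hDclosed : closure D ⊆ D := by
    rintro ⟨x, y⟩ hp
    by_contra hpD
    let Dx : Set E' := {y' | (x, y') ∈ D}
    have hDxL : Dx ⊆ L := fun y' hy' => (hDKL hy').2
    have hDx : IsClosed Dx := by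
      rw [← closure_subset_iff_isClosed]
      intro y' hy'
      obtain ⟨S, hS, hSc, hyS⟩ := hLt Dx hDxL y' hy'
      have h3 : (x, y') ∈ closure ((fun z => (x, z)) '' S) := by
        have hc : Continuous (fun z : E' => (x, z)) := by fun_prop
        exact image_closure_subset_closure_image hc (mem_image_of_mem _ hyS)
      exact hDω _ (by rintro _ ⟨z, hz, rfl⟩; exact hS hz) (hSc.image _) h3
    have hyc : Dxᶜ ∈ 𝓝 y := hDx.isOpen_compl.mem_nhds hpD
    obtain ⟨W, hW, hWc, hWD⟩ := exists_mem_nhds_isClosed_subset hyc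
    let P : Set E := {a | ∃ b ∈ W, (a, b) ∈ D}
    have hPK : P ⊆ K := by
      rintro a ⟨b, _, hab⟩
      exact (hDKL hab).1
    have hxP : x ∈ closure P := by
      rw [mem_closure_iff_nhds]
      intro V hV
      obtain ⟨⟨a, b⟩, ⟨ha, hb⟩, hab⟩ := mem_closure_iff_nhds.mp hp (V ×ˢ W)
        (prod_mem_nhds hV hW)
      exact ⟨a, ha, b, hb, hab⟩
    obtain ⟨S, hS, hSc, hxS⟩ := hKt P hPK x hxP
    have h3 : ∀ a : E, ∃ b : E', a ∈ S → b ∈ W ∧ (a, b) ∈ D := by
      intro a
      by_cases ha : a ∈ S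
      · obtain ⟨b, hb, hab⟩ := hS ha
        exact ⟨b, fun _ => ⟨hb, hab⟩⟩
      · exact ⟨y, fun h => absurd h ha⟩
    choose β hβ using h3
    let S' : Set (E × E') := (fun a => (a, β a)) '' S
    have hS'c : S'.Countable := hSc.image _
    have hS'D : S' ⊆ D := by
      rintro _ ⟨a, ha, rfl⟩
      exact (hβ a ha).2
    have hclS' : closure S' ⊆ D := hDω S' hS'D hS'c
    have hcomp : IsCompact (closure S') :=
      hKL.of_isClosed_subset isClosed_closure (hclS'.trans hDKL)
    have h4 : closure S ⊆ Prod.fst '' closure S' := by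
      refine closure_minimal ?_ (hcomp.image continuous_fst).isClosed
      intro a ha
      exact ⟨(a, β a), subset_closure ⟨a, ha, rfl⟩, rfl⟩
    obtain ⟨⟨x', y'⟩, hxy, hx'⟩ := h4 hxS
    have hx2 : x' = x := hx'
    subst hx2
    have hy'W : y' ∈ W := by
      have h5 : closure S' ⊆ (univ : Set E) ×ˢ W :=
        closure_minimal (by rintro _ ⟨a, ha, rfl⟩; exact ⟨trivial, (hβ a ha).1⟩)
          (isClosed_univ.prod hWc)
      exact (h5 hxy).2
    exact hWD hy'W (hclS' hxy)
  intro p hp
  exact hDclosed (closure_mono hBD hp)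

/-- The product of a compact Frechet-Urysohn set and a compact set of countable tightness whose
closures of countable subsets are bisequential. -/
lemma fu_prod {E : Type u} {E' : Type v} [TopologicalSpace E] [TopologicalSpace E'] [T2Space E]
    [T2Space E'] [RegularSpace E] [RegularSpace E'] {K : Set E} {L : Set E'} (hK : IsCompact K)
    (hL : IsCompact L) (hKF : FU K) (hLt : CT L)
    (hLb : ∀ S ⊆ L, S.Countable → ∀ (U : Ultrafilter E') (y : E'), closure S ∈ U →
      (U : Filter E') ≤ 𝓝 y → ∃ F : ℕ → Set E', (∀ n, F n ∈ U) ∧ ∀ V ∈ 𝓝 y, ∃ n, F n ⊆ V) :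
    FU (K ×ˢ L) := by
  intro B hB p hp
  obtain ⟨C, hCB, hCc, hpC⟩ := CT.prod hK hL hKF.ct hLt B hB p hp
  obtain ⟨x, y⟩ := p
  obtain ⟨U, hCU, hUp⟩ := mem_closure_iff_ultrafilter.1 hpC
  have hU1 : Tendsto Prod.fst (U : Filter (E × E')) (𝓝 x) :=
    (continuous_fst.tendsto (x, y)).mono_left hUp
  have hU2 : Tendsto Prod.snd (U : Filter (E × E')) (𝓝 y) :=
    (continuous_snd.tendsto (x, y)).mono_left hUp
  have hSL : Prod.snd '' C ⊆ L := by
    rintro _ ⟨q, hq, rfl⟩
    exact (hB (hCB hq)).2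
  have hSU : closure (Prod.snd '' C) ∈ U.map Prod.snd := by
    refine mem_of_superset ?_ subset_closure
    exact image_mem_map hCU
  obtain ⟨F, hF, hFy⟩ := hLb _ hSL (hCc.image _) (U.map Prod.snd) y hSU hU2
  let G : ℕ → Set E' := fun n => ⋂ i ∈ Finset.range (n + 1), F i
  have hGF : ∀ n m, n ≤ m → G m ⊆ F n := fun n m hnm =>
    biInter_subset_of_mem (Finset.mem_range.2 (Nat.lt_succ_of_le hnm))
  have hGanti : Antitone G := by
    intro n m hnm
    refine subset_iInter₂ fun i hi => ?_
    exact hGF i m (by have := Finset.mem_range.1 hi; omega)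
  have hGU : ∀ n, Prod.snd ⁻¹' (G n) ∈ (U : Filter (E × E')) := by
    intro n
    have : G n ∈ (U.map Prod.snd : Filter E') := by
      refine (Filter.biInter_finset_mem _).2 ?_
      intro i _
      exact hF i
    exact this
  let A : ℕ → Set E := fun n => {a | ∃ b, b ∈ G n ∧ (a, b) ∈ C}
  have hAanti : Antitone A := by
    rintro n m hnm a ⟨b, hb, hab⟩
    exact ⟨b, hGanti hnm hb, hab⟩
  have hAK : A 0 ⊆ K := by
    rintro a ⟨b, _, hab⟩
    exact (hB (hCB hab)).1
  have hxA : ∀ n, x ∈ closure (A n) := by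
    intro n
    refine mem_closure_of_tendsto hU1 ?_
    filter_upwards [hGU n, hCU] with q hq1 hq2
    exact ⟨q.2, hq1, hq2⟩
  obtain ⟨s, hs, hsx⟩ := strong hK hKF hAanti hAK hxA
  choose t ht1 ht2 using hs
  refine ⟨fun n => (s n, t n), fun n => hCB (ht2 n), ?_⟩
  refine hsx.prodMk_nhds ?_
  intro V hV
  obtain ⟨n, hn⟩ := hFy V hV
  rw [mem_map]
  filter_upwards [eventually_ge_atTop n] with m hm
  exact hn (hGF n m hm (ht1 m))

/-- Compactness of the closure of a relatively countably compact set of functions. -/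
lemma RCC.isCompact_closure' {Z : Type u} [TopologicalSpace Z] {A : Set (Z → ℝ)} (hA : RCC A) :
    IsCompact (closure A) := by
  have hbdd : ∀ z : Z, ∃ M : ℝ, ∀ h ∈ A, |h z| ≤ M := by
    intro z
    by_contra hcon
    push Not at hcon
    choose h hA' hh using fun n : ℕ => hcon n
    obtain ⟨a, -, ha⟩ := hA.2 h hA'
    have h1 : MapClusterPt (a z) atTop (fun n => h n z) :=
      ha.tendsto_comp (continuous_apply z).continuousAt
    rw [mapClusterPt_iff_frequently] at h1
    have h2 := h1 (Metric.ball (a z) 1) (Metric.ball_mem_nhds _ one_pos)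
    obtain ⟨N, hN⟩ := exists_nat_gt (|a z| + 1)
    rw [frequently_atTop] at h2
    obtain ⟨n, hn, hn2⟩ := h2 N
    rw [Metric.mem_ball, Real.dist_eq] at hn2
    have h3 := hh n
    have h4 : (N : ℝ) ≤ n := by exact_mod_cast hn
    have h5 : |h n z| ≤ |h n z - a z| + |a z| := by
      have := abs_add_le (h n z - a z) (a z)
      simpa using this
    linarith
  choose M hM using hbdd
  have hK : IsCompact (Set.pi univ (fun z : Z => Set.Icc (-(M z)) (M z))) :=
    isCompact_univ_pi (fun z => isCompact_Icc)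
  refine hK.of_isClosed_subset isClosed_closure ?_
  refine closure_minimal ?_ hK.isClosed
  intro h hh z _
  exact abs_le.mp (hM z h hh)

/-- Subsets of the closure of a relatively countably compact set. -/
lemma rcc_of_subset_closure {Z : Type u} [TopologicalSpace Z] (hZ : Ang Z) {A B : Set (Z → ℝ)}
    (hA : RCC A) (hB : B ⊆ closure A) : RCC B := by
  refine ⟨fun f hf => hZ.continuous hA (hB hf), fun s hs => ?_⟩
  obtain ⟨a, haK, ha⟩ := (RCC.isCompact_closure' hA).exists_mapClusterPt_of_frequently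
    (l := atTop) (f := s) (Eventually.of_forall fun n => hB (hs n)).frequently
  exact ⟨a, hZ.continuous hA haK, ha⟩

lemma fu_closure {Z : Type u} [TopologicalSpace Z] (hZ : Ang Z) {A : Set (Z → ℝ)}
    (hA : RCC A) : FU (closure A) := by
  intro B hB f hf
  exact hZ B (rcc_of_subset_closure hZ hA hB) f hf

/-- The hypothesis on `Y` in the form used. -/
lemma bisequential_use {Y : Type u} [TopologicalSpace Y] (hY : Ang Y)
    (hB : ∀ L : Set (Cp Y), IsCompact L → TopologicalSpace.SeparableSpace L → Bisequential L)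
    {A : Set (Y → ℝ)} (hA : RCC A) :
    ∀ S ⊆ closure A, S.Countable → ∀ (U : Ultrafilter (Y → ℝ)) (y : Y → ℝ), closure S ∈ U →
      (U : Filter (Y → ℝ)) ≤ 𝓝 y →
      ∃ F : ℕ → Set (Y → ℝ), (∀ n, F n ∈ U) ∧ ∀ V ∈ 𝓝 y, ∃ n, F n ⊆ V := by
  intro S hS hSc U y hSU hUy
  have hclS : closure S ⊆ closure A := closure_minimal hS isClosed_closure
  have hcont : ∀ g ∈ closure S, Continuous g := fun g hg => hY.continuous hA (hclS hg)
  have hcomp : IsCompact (closure S) :=
    (RCC.isCompact_closure' hA).of_isClosed_subset isClosed_closure hclS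
  let L : Set (Cp Y) := Subtype.val ⁻¹' closure S
  have hL : IsCompact L := by
    refine IsInducing.subtypeVal.isCompact_preimage' hcomp ?_
    intro g hg
    exact ⟨⟨g, hcont g hg⟩, rfl⟩
  let ι : L → (Y → ℝ) := fun l => l.1.1
  have hind : IsInducing ι := (IsInducing.subtypeVal).comp IsInducing.subtypeVal
  have hinj : Function.Injective ι := Subtype.val_injective.comp Subtype.val_injective
  have hsep : TopologicalSpace.SeparableSpace L := by
    refine ⟨⟨ι ⁻¹' S, hSc.preimage hinj, ?_⟩⟩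
    intro l
    rw [hind.closure_eq_preimage_closure_image]
    have h1 : ι '' (ι ⁻¹' S) = S := by
      refine image_preimage_eq_of_subset ?_
      intro g hg
      exact ⟨⟨⟨g, hcont g (subset_closure hg)⟩, subset_closure hg⟩, rfl⟩
    rw [h1]
    exact l.2
  have hrange : range ι = closure S := by
    ext g
    constructor
    · rintro ⟨l, rfl⟩
      exact l.2
    · intro hg
      exact ⟨⟨⟨g, hcont g hg⟩, hg⟩, rfl⟩
  have hyS : y ∈ closure S := isClosed_closure.mem_of_tendsto (f := id) hUy hSU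
  have hlarge : range ι ∈ U := by rw [hrange]; exact hSU
  let U' : Ultrafilter L := U.comap hinj hlarge
  let y' : L := ⟨⟨y, hcont y hyS⟩, hyS⟩
  have hU' : (U' : Filter L) ≤ 𝓝 y' := by
    rw [hind.nhds_eq_comap]
    exact comap_mono hUy
  obtain ⟨F, hF, hFy⟩ := hB L hL hsep U' y' hU'
  refine ⟨fun n => ι '' F n, fun n => ?_, fun V hV => ?_⟩
  · have h1 : F n ∈ comap ι (U : Filter (Y → ℝ)) := hF n
    rw [mem_comap] at h1
    obtain ⟨T, hT, hTF⟩ := h1
    refine mem_of_superset (inter_mem hT hlarge) ?_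
    rintro _ ⟨hgT, l, rfl⟩
    exact ⟨l, hTF hgT, rfl⟩
  · have h1 : ι ⁻¹' V ∈ 𝓝 y' := hind.continuous.continuousAt.preimage_mem_nhds hV
    obtain ⟨n, hn⟩ := hFy _ h1
    exact ⟨n, image_subset_iff.2 hn⟩

theorem ang_sum_core {X : Type u} {Y : Type v} [TopologicalSpace X] [TopologicalSpace Y]
    (hFU : ∀ (A₁ : Set (X → ℝ)) (A₂ : Set (Y → ℝ)), RCC A₁ → RCC A₂ →
      FU ((closure A₁) ×ˢ (closure A₂))) : Ang (X ⊕ Y) := by
  intro A hA f hf
  let Φ : (X ⊕ Y → ℝ) → (X → ℝ) := fun h x => h (Sum.inl x)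
  let Ψ : (X ⊕ Y → ℝ) → (Y → ℝ) := fun h y => h (Sum.inr y)
  have hΦ : Continuous Φ := continuous_pi fun x => continuous_apply _
  have hΨ : Continuous Ψ := continuous_pi fun y => continuous_apply _
  have hΦ' : ∀ h : X ⊕ Y → ℝ, Continuous h → Continuous (Φ h) := fun h hh =>
    hh.comp continuous_inl
  have hΨ' : ∀ h : X ⊕ Y → ℝ, Continuous h → Continuous (Ψ h) := fun h hh =>
    hh.comp continuous_inr
  have h1 : RCC (Φ '' A) := hA.image hΦ hΦ'
  have h2 : RCC (Ψ '' A) := hA.image hΨ hΨ'
  have h3 : FU ((closure (Φ '' A)) ×ˢ (closure (Ψ '' A))) := hFU _ _ h1 h2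
  let ρ : (X ⊕ Y → ℝ) → (X → ℝ) × (Y → ℝ) := fun h => (Φ h, Ψ h)
  have hρ : Continuous ρ := hΦ.prodMk hΨ
  have h4 : ρ '' A ⊆ (closure (Φ '' A)) ×ˢ (closure (Ψ '' A)) := by
    rintro _ ⟨h, hh, rfl⟩
    exact ⟨subset_closure (mem_image_of_mem _ hh), subset_closure (mem_image_of_mem _ hh)⟩
  have h5 : ρ f ∈ closure (ρ '' A) :=
    image_closure_subset_closure_image hρ (mem_image_of_mem _ hf)
  obtain ⟨s, hs, hsf⟩ := h3 _ h4 _ h5
  choose g hgA hgs using hs
  refine ⟨g, hgA, ?_⟩
  have h6 : Tendsto (fun n => ρ (g n)) atTop (𝓝 (ρ f)) := by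
    have : (fun n => ρ (g n)) = s := funext hgs
    rw [this]
    exact hsf
  rw [tendsto_pi_nhds]
  rintro (x | y)
  · exact ((continuous_apply x).tendsto _).comp ((continuous_fst.tendsto _).comp h6)
  · exact ((continuous_apply y).tendsto _).comp ((continuous_snd.tendsto _).comp h6)

theorem ang_sum {X : Type u} {Y : Type v} [TopologicalSpace X] [TopologicalSpace Y]
    (hX : Ang X) (hY : Ang Y)
    (hB : ∀ L : Set (Cp Y), IsCompact L → TopologicalSpace.SeparableSpace L → Bisequential L) :
    Ang (X ⊕ Y) :=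
  ang_sum_core fun _ _ h1 h2 =>
    fu_prod (RCC.isCompact_closure' h1) (RCC.isCompact_closure' h2) (fu_closure hX h1)
      (fu_closure hY h2).ct (bisequential_use hY hB h2)

theorem ang_sum_bounded {X : Type u} {Y : Type v} [TopologicalSpace X] [TopologicalSpace Y]
    (hX : Ang X) (hY : Ang Y)
    (hU : ∀ φ : Y → ℕ → ℕ, ∃ g : ℕ → ℕ, ∀ y, ∀ᶠ n in atTop, φ y n ≤ g n) : Ang (X ⊕ Y) :=
  ang_sum_core fun _ _ h1 h2 =>
    fu_prod_beta (RCC.isCompact_closure' h1) (RCC.isCompact_closure' h2) (fu_closure hX h1)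
      (fu_closure hY h2) (beta_of_bounded hU _)

/-! ### Reflection to images of countable i-weight -/

/-- Countable i-weight: a continuous injection into the countable power of the real line. -/
def CountableIWeight (X : Type u) [TopologicalSpace X] : Prop :=
  ∃ j : X → (ℕ → ℝ), Continuous j ∧ Function.Injective j

lemma ang_image {Z : Type u} {X : Type v} [TopologicalSpace Z] [TopologicalSpace X]
    (hZ : Ang Z) {p : Z → X} (hp : Continuous p) (hps : Function.Surjective p) : Ang X := by
  intro A hA f hf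
  let Φ : (X → ℝ) → (Z → ℝ) := fun h z => h (p z)
  have hΦ : Continuous Φ := continuous_pi fun z => continuous_apply _
  have hΦ' : ∀ h : X → ℝ, Continuous h → Continuous (Φ h) := fun h hh => hh.comp hp
  obtain ⟨-, s, hs, hsf⟩ := hZ.push hA hf hΦ hΦ'
  refine ⟨s, hs, ?_⟩
  rw [tendsto_pi_nhds] at hsf ⊢
  intro x
  obtain ⟨z, rfl⟩ := hps x
  exact hsf z

/-- Evaluation of the points of `X` on a set of functions. -/
def ev {X : Type u} (K : Set (X → ℝ)) : X → (K → ℝ) := fun x g => g.1 x

lemma continuous_ev {X : Type u} [TopologicalSpace X] {K : Set (X → ℝ)}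
    (hK : ∀ g ∈ K, Continuous g) : Continuous (ev K) :=
  continuous_pi fun g => hK g.1 g.2

lemma iweight_range_ev {X : Type u} {S : Set (X → ℝ)} (hS : S.Countable) :
    CountableIWeight (range (ev (closure S))) := by
  rcases S.eq_empty_or_nonempty with h | h
  · subst h
    have : IsEmpty (closure (∅ : Set (X → ℝ))) := by
      rw [closure_empty]
      infer_instance
    refine ⟨fun _ => 0, continuous_const, fun a b _ => ?_⟩
    apply Subtype.ext
    funext g
    exact isEmptyElim g
  · obtain ⟨e, he⟩ := hS.exists_eq_range h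
    have heS : ∀ n, e n ∈ closure S := fun n => subset_closure (he ▸ mem_range_self n)
    refine ⟨fun ξ n => ξ.1 ⟨e n, heS n⟩, ?_, ?_⟩
    · exact continuous_pi fun n => (continuous_apply _).comp continuous_subtype_val
    · rintro ⟨_, x, rfl⟩ ⟨_, x', rfl⟩ hxx'
      apply Subtype.ext
      funext g
      have hcl : IsClosed {g : X → ℝ | g x = g x'} :=
        isClosed_eq (continuous_apply x) (continuous_apply x')
      have hsub : S ⊆ {g : X → ℝ | g x = g x'} := by
        rw [he]
        rintro _ ⟨n, rfl⟩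
        exact congrFun hxx' n
      exact closure_minimal hsub hcl g.2

theorem ang_sum_of_images {X : Type u} {Y : Type v} [TopologicalSpace X] [TopologicalSpace Y]
    (hX : Ang X) (hY : Ang Y)
    (hXY : ∀ (X' : Type u) (Y' : Type v) [TopologicalSpace X'] [TopologicalSpace Y']
      [T35Space X'] [T35Space Y'], CountableIWeight X' → CountableIWeight Y' →
      (∃ p : X → X', Continuous p ∧ Function.Surjective p) →
      (∃ q : Y → Y', Continuous q ∧ Function.Surjective q) → Ang (X' ⊕ Y')) :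
    Ang (X ⊕ Y) := by
  intro A hA f hf
  let Φ : (X ⊕ Y → ℝ) → (X → ℝ) := fun h x => h (Sum.inl x)
  let Ψ : (X ⊕ Y → ℝ) → (Y → ℝ) := fun h y => h (Sum.inr y)
  have hΦ : Continuous Φ := continuous_pi fun x => continuous_apply _
  have hΨ : Continuous Ψ := continuous_pi fun y => continuous_apply _
  have hΦ' : ∀ h : X ⊕ Y → ℝ, Continuous h → Continuous (Φ h) := fun h hh =>
    hh.comp continuous_inl
  have hΨ' : ∀ h : X ⊕ Y → ℝ, Continuous h → Continuous (Ψ h) := fun h hh =>
    hh.comp continuous_inr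
  have h1 : RCC (Φ '' A) := hA.image hΦ hΦ'
  have h2 : RCC (Ψ '' A) := hA.image hΨ hΨ'
  let ρ : (X ⊕ Y → ℝ) → (X → ℝ) × (Y → ℝ) := fun h => (Φ h, Ψ h)
  have hρ : Continuous ρ := hΦ.prodMk hΨ
  have h4 : ρ '' A ⊆ (closure (Φ '' A)) ×ˢ (closure (Ψ '' A)) := by
    rintro _ ⟨h, hh, rfl⟩
    exact ⟨subset_closure (mem_image_of_mem _ hh), subset_closure (mem_image_of_mem _ hh)⟩
  have h5 : ρ f ∈ closure (ρ '' A) :=
    image_closure_subset_closure_image hρ (mem_image_of_mem _ hf)
  obtain ⟨C, hCA, hCc, hfC⟩ := CT.prod (RCC.isCompact_closure' h1) (RCC.isCompact_closure' h2)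
    (fu_closure hX h1).ct (fu_closure hY h2).ct _ h4 _ h5
  -- the two separable compact sets
  let C1 : Set (X → ℝ) := Prod.fst '' C
  let C2 : Set (Y → ℝ) := Prod.snd '' C
  have hC1 : closure C1 ⊆ closure (Φ '' A) := by
    refine closure_minimal ?_ isClosed_closure
    rintro _ ⟨c, hc, rfl⟩
    exact (h4 (hCA hc)).1
  have hC2 : closure C2 ⊆ closure (Ψ '' A) := by
    refine closure_minimal ?_ isClosed_closure
    rintro _ ⟨c, hc, rfl⟩
    exact (h4 (hCA hc)).2
  have hk1 : ∀ g ∈ closure C1, Continuous g := fun g hg => hX.continuous h1 (hC1 hg)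
  have hk2 : ∀ g ∈ closure C2, Continuous g := fun g hg => hY.continuous h2 (hC2 hg)
  have hcomp1 : IsCompact (closure C1) :=
    (RCC.isCompact_closure' h1).of_isClosed_subset isClosed_closure hC1
  have hcomp2 : IsCompact (closure C2) :=
    (RCC.isCompact_closure' h2).of_isClosed_subset isClosed_closure hC2
  have hcs1 : CompactSpace (closure C1) := isCompact_iff_compactSpace.1 hcomp1
  have hcs2 : CompactSpace (closure C2) := isCompact_iff_compactSpace.1 hcomp2
  have hang := hXY (range (ev (closure C1))) (range (ev (closure C2)))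
    (iweight_range_ev (hCc.image _)) (iweight_range_ev (hCc.image _))
    ⟨rangeFactorization (ev (closure C1)), (continuous_ev hk1).subtype_mk _,
      rangeFactorization_surjective⟩
    ⟨rangeFactorization (ev (closure C2)), (continuous_ev hk2).subtype_mk _,
      rangeFactorization_surjective⟩
  let Θ : closure C1 × closure C2 →
      (range (ev (closure C1)) ⊕ range (ev (closure C2)) → ℝ) :=
    fun c => Sum.elim (fun ξ => ξ.1 c.1) (fun η => η.1 c.2)
  have hΘ : Continuous Θ := by
    refine continuous_pi ?_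
    rintro (⟨_, x, rfl⟩ | ⟨_, y, rfl⟩)
    · exact (continuous_apply x).comp (continuous_subtype_val.comp continuous_fst)
    · exact (continuous_apply y).comp (continuous_subtype_val.comp continuous_snd)
  have hΘ' : ∀ c, Continuous (Θ c) := by
    intro c
    exact Continuous.sumElim ((continuous_apply _).comp continuous_subtype_val)
      ((continuous_apply _).comp continuous_subtype_val)
  let κ : closure C1 × closure C2 → (X → ℝ) × (Y → ℝ) := fun c => (c.1.1, c.2.1)
  have hκ : IsInducing κ := IsInducing.subtypeVal.prodMap IsInducing.subtypeVal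
  have hA' : RCC (Θ '' (κ ⁻¹' C)) := by
    refine ⟨?_, ?_⟩
    · rintro _ ⟨c, -, rfl⟩
      exact hΘ' c
    · intro s hs
      choose c hc hcs using hs
      obtain ⟨c₀, -, hc₀⟩ := (isCompact_univ (X := closure C1 × closure C2)).exists_mapClusterPt_of_frequently
        (l := atTop) (f := c) (Eventually.of_forall fun n => mem_univ _).frequently
      refine ⟨Θ c₀, hΘ' c₀, ?_⟩
      have h6 := hc₀.tendsto_comp hΘ.continuousAt
      have h7 : Θ ∘ c = s := funext hcs
      rwa [h7] at h6
  have hf1 : Φ f ∈ closure C1 :=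
    image_closure_subset_closure_image continuous_fst (mem_image_of_mem _ hfC)
  have hf2 : Ψ f ∈ closure C2 :=
    image_closure_subset_closure_image continuous_snd (mem_image_of_mem _ hfC)
  let p₀ : closure C1 × closure C2 := (⟨Φ f, hf1⟩, ⟨Ψ f, hf2⟩)
  have hp₀ : p₀ ∈ closure (κ ⁻¹' C) := by
    rw [hκ.closure_eq_preimage_closure_image]
    have h6 : κ '' (κ ⁻¹' C) = C := by
      refine image_preimage_eq_of_subset ?_
      intro c hc
      exact ⟨(⟨c.1, subset_closure ⟨c, hc, rfl⟩⟩, ⟨c.2, subset_closure ⟨c, hc, rfl⟩⟩), rfl⟩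
    rw [h6]
    exact hfC
  have h8 : Θ p₀ ∈ closure (Θ '' (κ ⁻¹' C)) :=
    image_closure_subset_closure_image hΘ (mem_image_of_mem _ hp₀)
  obtain ⟨t, ht, htp⟩ := hang _ hA' _ h8
  choose c hc hct using ht
  have h9 : ∀ n, ∃ h ∈ A, ρ h = κ (c n) := fun n => hCA (hc n)
  choose g hgA hgc using h9
  refine ⟨g, hgA, ?_⟩
  have h10 : Tendsto (fun n => Θ (c n)) atTop (𝓝 (Θ p₀)) := by
    have : (fun n => Θ (c n)) = t := funext hct
    rw [this]
    exact htp
  rw [tendsto_pi_nhds] at h10 ⊢
  rintro (x | y)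
  · have h11 := h10 (Sum.inl ⟨ev (closure C1) x, mem_range_self x⟩)
    refine h11.congr fun n => ?_
    have h12 := congrArg Prod.fst (hgc n)
    exact (congrFun h12 x).symm
  · have h11 := h10 (Sum.inr ⟨ev (closure C2) y, mem_range_self y⟩)
    refine h11.congr fun n => ?_
    have h12 := congrArg Prod.snd (hgc n)
    exact (congrFun h12 y).symm

/-- If the images of countable i-weight are separable, the separable compact sets are first
countable. -/
lemma bisequential_of_separable_images {Y : Type u} [TopologicalSpace Y]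
    (hS : ∀ (Y' : Type u) [TopologicalSpace Y'] [T35Space Y'], CountableIWeight Y' →
      (∃ q : Y → Y', Continuous q ∧ Function.Surjective q) →
      TopologicalSpace.SeparableSpace Y') :
    ∀ L : Set (Cp Y), IsCompact L → TopologicalSpace.SeparableSpace L → Bisequential L := by
  intro L hL hsep
  obtain ⟨D, hDc, hDd⟩ := hsep.exists_countable_dense
  let ι : L → (Y → ℝ) := fun l => l.1.1
  have hιc : Continuous ι := continuous_subtype_val.comp continuous_subtype_val
  have hιi : Function.Injective ι := Subtype.val_injective.comp Subtype.val_injective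
  let S : Set (Y → ℝ) := ι '' D
  have hcs : CompactSpace L := isCompact_iff_compactSpace.1 hL
  have hSr : closure S = range ι := by
    apply Subset.antisymm
    · refine closure_minimal ?_ (isCompact_range hιc).isClosed
      rintro _ ⟨l, _, rfl⟩
      exact mem_range_self l
    · rintro _ ⟨l, rfl⟩
      exact image_closure_subset_closure_image hιc (mem_image_of_mem _ (hDd l))
  have hk : ∀ g ∈ closure S, Continuous g := by
    intro g hg
    rw [hSr] at hg
    obtain ⟨l, rfl⟩ := hg
    exact l.1.2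
  have hsepY := hS (range (ev (closure S))) (iweight_range_ev (hDc.image _))
    ⟨rangeFactorization (ev (closure S)), (continuous_ev hk).subtype_mk _,
      rangeFactorization_surjective⟩
  obtain ⟨T, hTc, hTd⟩ := hsepY.exists_countable_dense
  have : Countable T := hTc.to_subtype
  have hmem : ∀ l : L, ι l ∈ closure S := fun l => hSr ▸ mem_range_self l
  let ψ : L → (T → ℝ) := fun l ξ => ξ.1.1 ⟨ι l, hmem l⟩
  have hψ : Continuous ψ := by
    refine continuous_pi ?_
    rintro ⟨⟨_, y, rfl⟩, _⟩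
    exact (continuous_apply y).comp hιc
  have hψi : Function.Injective ψ := by
    intro l l' hll
    apply hιi
    funext y
    have hcl : IsClosed {ξ : range (ev (closure S)) | ξ.1 ⟨ι l, hmem l⟩ = ξ.1 ⟨ι l', hmem l'⟩} :=
      isClosed_eq ((continuous_apply _).comp continuous_subtype_val)
        ((continuous_apply _).comp continuous_subtype_val)
    have hsub : T ⊆ {ξ : range (ev (closure S)) | ξ.1 ⟨ι l, hmem l⟩ = ξ.1 ⟨ι l', hmem l'⟩} :=
      fun ξ hξ => congrFun hll ⟨ξ, hξ⟩
    have h1 := hcl.closure_subset_iff.2 hsub (hTd ⟨ev (closure S) y, mem_range_self y⟩)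
    exact h1
  have hemb := hψ.isClosedEmbedding hψi
  have hfc : FirstCountableTopology L := hemb.isInducing.firstCountableTopology
  intro U z hUz
  obtain ⟨F, hF⟩ := (𝓝 z).exists_antitone_basis
  refine ⟨F, fun n => hUz (hF.mem n), fun V hV => ?_⟩
  obtain ⟨n, -, hn⟩ := hF.toHasBasis.mem_iff.1 hV
  exact ⟨n, hn⟩

/-- `C_p(X)` has a separable compact subspace that is not bisequential. -/
def NonBisequentialCompactum (X : Type u) [TopologicalSpace X] : Prop :=
  ∃ L : Set (Cp X), IsCompact L ∧ TopologicalSpace.SeparableSpace L ∧ ¬ Bisequential L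

lemma not_separable {Y : Type u} [TopologicalSpace Y] (h : NonBisequentialCompactum Y) :
    ¬ TopologicalSpace.SeparableSpace Y := by
  intro hsep
  obtain ⟨L, hL, hLs, hLb⟩ := h
  refine hLb (bisequential_of_separable_images ?_ L hL hLs)
  rintro Y' _ _ - ⟨q, hq, hqs⟩
  exact hqs.denseRange.separableSpace hq

/-- `X` has at least `b` points: some family of functions `ℕ → ℕ` indexed by the points of `X`
is not bounded by one function modulo finite sets. -/
def AtLeastB (X : Type u) : Prop :=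
  ∃ φ : X → ℕ → ℕ, ¬ ∃ g : ℕ → ℕ, ∀ x, ∀ᶠ n in atTop, φ x n ≤ g n

/-- **Reflection of Arhangel'skii's question to images of countable i-weight.** The sum of two
Grothendieck spaces `X` and `Y` is Grothendieck if and only if the sums `X' ⊕ Y'` are, where `X'`,
`Y'` are continuous images of `X`, `Y` of countable i-weight, not separable, with at least `b`
points, and with non-bisequential separable compact subspaces in `C_p(X')` and `C_p(Y')`. -/
theorem result (X : Type u) (Y : Type v) [TopologicalSpace X] [TopologicalSpace Y]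
    [T35Space X] [T35Space Y] (hX : GrothendieckSpace X) (hY : GrothendieckSpace Y) :
    GrothendieckSpace (X ⊕ Y) ↔
      ∀ (X' : Type u) (Y' : Type v) [TopologicalSpace X'] [TopologicalSpace Y']
        [T35Space X'] [T35Space Y'],
        (∃ p : X → X', Continuous p ∧ Function.Surjective p) →
        (∃ q : Y → Y', Continuous q ∧ Function.Surjective q) →
        CountableIWeight X' → CountableIWeight Y' →
        ¬ TopologicalSpace.SeparableSpace X' → ¬ TopologicalSpace.SeparableSpace Y' →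
        AtLeastB X' → AtLeastB Y' →
        NonBisequentialCompactum X' → NonBisequentialCompactum Y' →
        GrothendieckSpace (X' ⊕ Y') := by
  have hX' := ang_of_grothendieckSpace hX
  have hY' := ang_of_grothendieckSpace hY
  constructor
  · rintro h X' Y' _ _ _ _ ⟨p, hp, hps⟩ ⟨q, hq, hqs⟩ - - - - - - - -
    exact grothendieckSpace_of_ang (ang_image (ang_of_grothendieckSpace h)
      (hp.sumMap hq) (hps.sumMap hqs))
  · intro h
    refine grothendieckSpace_of_ang (ang_sum_of_images hX' hY' ?_)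
    rintro X' Y' _ _ _ _ h1 h2 ⟨p, hp, hps⟩ ⟨q, hq, hqs⟩
    have hX1 : Ang X' := ang_image hX' hp hps
    have hY1 : Ang Y' := ang_image hY' hq hqs
    have hswap : Ang (Y' ⊕ X') → Ang (X' ⊕ Y') := fun h3 =>
      ang_image h3 (p := Sum.swap) continuous_sum_swap Sum.swap_leftInverse.surjective
    by_cases hNY : NonBisequentialCompactum Y'
    swap
    · refine ang_sum hX1 hY1 ?_
      intro L hL hLs
      by_contra hcon
      exact hNY ⟨L, hL, hLs, hcon⟩
    by_cases hNX : NonBisequentialCompactum X'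
    swap
    · refine hswap (ang_sum hY1 hX1 ?_)
      intro L hL hLs
      by_contra hcon
      exact hNX ⟨L, hL, hLs, hcon⟩
    by_cases hBY : AtLeastB Y'
    swap
    · refine ang_sum_bounded hX1 hY1 ?_
      intro φ
      by_contra hcon
      exact hBY ⟨φ, hcon⟩
    by_cases hBX : AtLeastB X'
    swap
    · refine hswap (ang_sum_bounded hY1 hX1 ?_)
      intro φ
      by_contra hcon
      exact hBX ⟨φ, hcon⟩
    exact ang_of_grothendieckSpace (h X' Y' ⟨p, hp, hps⟩ ⟨q, hq, hqs⟩ h1 h2
      (not_separable hNX) (not_separable hNY) hBX hBY hNX hNY)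

end Pool.Agent.Results.MP_ab53ee_gt.CountableReflection
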