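import Mathlib
import Pool.Agent.Results.MP_8a2df8_gt.ProductCompact
import Pool.Agent.Lib.MP_ab53ee_gt.GS.Fin

/-!
# Under the continuum hypothesis the sum of two Grothendieck spaces need not be Grothendieck

The continuum hypothesis enters as the hypothesis `hCH`.  The notions `Cp`, `GSpace`,
`HereditarilyGSpace`, `GrothendieckSpace` are the ones of
`Pool.Agent.Results.MP_8a2df8_gt.ProductCompact`.
-/

set_option autoImplicit false

namespace Pool.Agent.Results.MP_ab53ee_gt.NegativeUnderCH

open Pool.Agent.Results.MP_8a2df8_gt.ProductCompact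

/-- Assume CH.  There are Tychonoff Grothendieck spaces `X` and `Y` such that their topological
sum is not a Grothendieck space. -/
theorem result (hCH : Cardinal.continuum.{0} = Cardinal.aleph 1) :
    ∃ (X Y : Type) (_ : TopologicalSpace X) (_ : TopologicalSpace Y), T35Space X ∧
      T35Space Y ∧ GrothendieckSpace X ∧ GrothendieckSpace Y ∧
        ¬ GrothendieckSpace (X ⊕ Y) :=
  Pool.Agent.Lib.MP_ab53ee_gt.GS.ch_sum hCH

end Pool.Agent.Results.MP_ab53ee_gt.NegativeUnderCH
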